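import Pool.Agent.NH21.Bty.Main
import Pool.Agent.NH21.Bty.Log
import Pool.Agent.NH21.Bty.UB
import Pool.Agent.NH21.Bty.AA
import Pool.Agent.NH21.Bty.MB
import Pool.Agent.NH21.Bty.Ess
import Pool.Agent.NH21.Bty.Fin

/-!
# The rate of convergence in the Erdős–Kac theorem along Beatty sequences

For every real `α > 0` and every real `β` the number of prime factors of `⌊α n + β⌋` satisfies the
Erdős–Kac theorem with Kolmogorov distance `O(1 / √(log log N))`.

Sketch. The terms of the Beatty sequence are the integers `m` with the weights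
`α⁻¹ + {κ - (m+1)θ} - {κ - mθ}`, `θ = α⁻¹`, `κ = βθ`. For `|z| = 1` near `1` the sum of the weights
times `z ^ ω(m)` is evaluated after multiplication with `log m = ∑ Λ(d)`: since `z ^ ω(p)` is constant
on the primes, the inner sums are sums over primes of the weights along multiples, which are
estimated by exponential sums over primes on the minor arcs and by the Siegel–Walfisz theorem on
the major arcs. Esseen's inequality gives the rate.
-/

set_option autoImplicit false

namespace Pool.Agent.Results.MP_4a5284_nt.BeattyRate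

/-- For every real `α > 0` and every real `β` there is a constant `C` such that for all large `N`
the Kolmogorov distance of `(ω(⌊α n + β⌋) - log log N) / √(log log N)`, `n` uniform in `{1, …, N}`,
and the standard normal law is at most `C / √(log log N)`. -/
theorem result (α : ℝ) (hα : 0 < α) (β : ℝ) :
    ∃ C : ℝ, ∃ N0 : ℕ, ∀ N : ℕ, N0 ≤ N → ∀ x : ℝ,
      |(((Finset.Icc 1 N).filter (fun n : ℕ =>
          ((⌊α * n + β⌋.toNat.primeFactors.card : ℝ) - Real.log (Real.log N)) /
            Real.sqrt (Real.log (Real.log N)) ≤ x)).card : ℝ) / N -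
        (ProbabilityTheory.gaussianReal 0 1).real (Set.Iic x)| ≤ C / Real.sqrt (Real.log (Real.log N)) := by
  have h := Pool.Agent.NH21.Bty.main_of Pool.Agent.NH21.Bty.log_id
    (Pool.Agent.NH21.Bty.ww Pool.Agent.NH21.Bty.ub)
    (Pool.Agent.NH21.Bty.lem_A Pool.Agent.NH21.Bty.wet Pool.Agent.NH21.Bty.eq)
    Pool.Agent.NH21.Bty.lem_B (Pool.Agent.NH21.Bty.fin_of Pool.Agent.NH21.Bty.ess) α hα β
  exact h

end Pool.Agent.Results.MP_4a5284_nt.BeattyRate
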